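import Pool.Agent.Helper82.SR.Twist

set_option autoImplicit false

/-!
# PROJECT SB (MP_ad201b_nt), block R7: the representation of `M_b(A)` and block matrices
-/

open scoped TensorProduct Kronecker

namespace Pool.Agent.Helper82.SR

open Pool.Agent.Helper1.SR

variable {K Om : Type} [Field K] [Field Om] [Algebra K Om] {A : Type} [Ring A] [Algebra K A]

/-- the representation of `M_b(A)` over `E` given by the representation of `A` -/
noncomputable def Wb (D : Datum K Om A) (b : ℕ) :
    Matrix (Fin b) (Fin b) A →ₐ[K] Matrix (Fin (b * D.d)) (Fin (b * D.d)) D.E :=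
  (Matrix.reindexAlgEquiv K D.E finProdFinEquiv).toAlgHom.comp
    ((Matrix.compAlgEquiv (Fin b) (Fin D.d) D.E K).toAlgHom.comp D.φ.mapMatrix)

theorem Wb_apply (D : Datum K Om A) (b : ℕ) (a : Matrix (Fin b) (Fin b) A)
    (i j : Fin (b * D.d)) :
    Wb D b a i j = D.φ (a (finProdFinEquiv.symm i).1 (finProdFinEquiv.symm j).1)
      (finProdFinEquiv.symm i).2 (finProdFinEquiv.symm j).2 := rfl

theorem Bk_apply (D : Datum K Om A) (b : ℕ) (M : Matrix (Fin D.d) (Fin D.d) D.E)
    (i j : Fin (b * D.d)) :
    Bk b M i j = (if (finProdFinEquiv.symm i).1 = (finProdFinEquiv.symm j).1 then 1 else 0) *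
      (M (finProdFinEquiv.symm i).2 (finProdFinEquiv.symm j).2 : Om) := by
  simp [Bk, Matrix.kroneckerMap_apply, Matrix.one_apply]

theorem Bk_comm (D : Datum K Om A) (b : ℕ) (a : Matrix (Fin b) (Fin b) A) (y : Ghat D) :
    Bk b y.M * ((Wb D b a).map y.g).map (algebraMap D.E Om) =
      (Wb D b a).map (algebraMap D.E Om) * Bk b y.M := by
  ext i j
  rw [Matrix.mul_apply, Matrix.mul_apply]
  rw [← finProdFinEquiv.sum_comp, ← finProdFinEquiv.sum_comp, Fintype.sum_prod_type,
    Fintype.sum_prod_type]
  simp only [Bk_apply, Matrix.map_apply, Wb_apply, Equiv.symm_apply_apply, ite_mul, one_mul,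
    zero_mul, mul_ite, mul_zero]
  rw [Finset.sum_eq_single (finProdFinEquiv.symm i).1]
  · rw [Finset.sum_eq_single (finProdFinEquiv.symm j).1]
    · simp only [if_true]
      have h := congrFun (congrFun (y.comm (a (finProdFinEquiv.symm i).1
        (finProdFinEquiv.symm j).1)) (finProdFinEquiv.symm i).2) (finProdFinEquiv.symm j).2
      rw [Matrix.mul_apply, Matrix.mul_apply] at h
      have h2 := congrArg (algebraMap D.E Om) h
      rw [map_sum, map_sum] at h2
      simp only [map_mul] at h2
      exact h2
    · intro k _ hk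
      refine Finset.sum_eq_zero fun l _ => ?_
      rw [if_neg hk]
    · intro h
      exact absurd (Finset.mem_univ _) h
  · intro k _ hk
    refine Finset.sum_eq_zero fun l _ => ?_
    rw [if_neg (Ne.symm hk)]
  · intro h
    exact absurd (Finset.mem_univ _) h

end Pool.Agent.Helper82.SR
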