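import Pool.Agent.Helper82.SR.ObCore

set_option autoImplicit false

/-!
# PROJECT SB (MP_ad201b_nt), block R7: the obstruction vanishes, given a representation
-/

open scoped TensorProduct

namespace Pool.Agent.Helper82.SR

open Pool.Agent.Helper1.SR

variable {K Om : Type} [Field K] [Field Om] [Algebra K Om] {A : Type} [Ring A] [Algebra K A]
variable {D : Datum K Om A} {V : ValuationSubring Om}

theorem PP_smul {b : ℕ} {Q : Matrix (Fin (b * D.d)) (Fin (b * D.d)) Om} (x y : Ghat D) (c : D.E)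
    (h : x.M = c • y.M) (g : Om ≃ₐ[K] Om) : PP Q x g = (c : Om) • PP Q y g := by
  unfold PP
  rw [h, Bk_smul, mul_smul_comm, smul_mul_assoc]

/-- the computation in the residue field -/
theorem ob_eq (r : Rep D V) (σ τ : Om ≃ₐ[K] Om)
    (hσ : ∀ x, σ x ∈ V ↔ x ∈ V) (hτ : ∀ x, τ x ∈ V ↔ x ∈ V)
    (hτ1 : ∀ x ∈ V, V.valuation (τ x - x) < 1)
    (s t : Ghat D) (hs : Over s σ) (ht : Over t τ) (c : D.E) (q : ℕ)
    (hc : (s * t * s⁻¹).M = c • (t ^ q).M)
    (hQ : ∀ i j, (σ * τ * σ⁻¹) (r.Q⁻¹ i j) = (τ ^ q) (r.Q⁻¹ i j)) (cV : V) (hcV : (cV : Om) = c)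
    (l : V) (T : Matrix (Fin (r.b * D.d)) (Fin (r.b * D.d)) V) (hT : up T = PP r.Q t τ)
    (hl : red T = IsLocalRing.residue V l • (1 : Matrix (Fin (r.b * D.d)) (Fin (r.b * D.d)) _)) :
    IsLocalRing.residue V cV * IsLocalRing.residue V l ^ q =
      IsLocalRing.residue V ⟨σ l, (hσ l).2 l.2⟩ := by
  have hσ' : ∀ x, (σ : Om ≃+* Om) x ∈ V ↔ x ∈ V := hσ
  have hτ' : ∀ x, (τ : Om ≃+* Om) x ∈ V ↔ x ∈ V := hτ
  obtain ⟨ρ, hρ⟩ : ∃ ρ, ρ = σ * τ * σ⁻¹ := ⟨_, rfl⟩
  have hρσ : ρ * σ = σ * τ := by rw [hρ, mul_assoc, inv_mul_cancel, mul_one]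
  have hρV : ∀ x, (ρ : Om ≃+* Om) x ∈ V ↔ x ∈ V := by
    intro x
    have h1 : (ρ : Om ≃+* Om) x = σ (τ (σ.symm x)) := by rw [hρ]; rfl
    rw [h1, hσ, hτ, ← hσ, AlgEquiv.apply_symm_apply]
  have hρ1 : ∀ x ∈ V, V.valuation ((ρ : Om ≃+* Om) x - x) < 1 := by
    intro x hx
    have h1 : (ρ : Om ≃+* Om) x - x = σ (τ (σ.symm x) - σ.symm x) := by
      rw [map_sub, AlgEquiv.apply_symm_apply, hρ]
      rfl
    rw [h1]
    refine val_lt_one_map σ hσ _ (hτ1 _ ?_)
    rw [← hσ, AlgEquiv.apply_symm_apply]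
    exact hx
  obtain ⟨S, hS, hSdet⟩ := int_lift r σ hσ s hs
  obtain ⟨W, hW1, hW2⟩ := pow_lift r τ hτ hτ1 t ht T hT _ hl q
  have hover : Over (s * t * s⁻¹) ρ := by
    have h1 : Over (s⁻¹) σ⁻¹ := by
      intro e
      have h2 := hs (s⁻¹.g e)
      rw [Ghat.inv_g] at h2
      have h3 : (s.g (s.g⁻¹ e)) = e := by
        rw [← AlgEquiv.mul_apply, mul_inv_cancel]; rfl
      rw [h3] at h2
      have h4 : σ⁻¹ (e : Om) = σ⁻¹ (σ ((s.g⁻¹ e : D.E) : Om)) := by rw [h2]
      rw [h4]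
      exact σ.symm_apply_apply _
    rw [hρ]
    exact (hs.mul ht).mul h1
  -- the two expressions
  have e1 : PP r.Q (s * t * s⁻¹) ρ = (c : Om) • up W := by
    rw [PP_smul _ _ c hc, hW1]
    congr 1
    unfold PP
    congr 1
    ext i j
    rw [hρ]
    exact hQ i j
  have e2 : PP r.Q (s * t) (σ * τ) = PP r.Q (s * t * s⁻¹) ρ * (up S).map ρ := by
    rw [hS, ← PP_mul r.det _ _ _ _ hover, hρσ, mul_assoc, inv_mul_cancel, mul_one]
  have e3 : PP r.Q (s * t) (σ * τ) = up S * (up T).map σ := by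
    rw [hS, hT, ← PP_mul r.det _ _ _ _ hs]
  have e4 : (cV • W) * S.map (resV V (ρ : Om ≃+* Om) hρV) =
      S * T.map (resV V (σ : Om ≃+* Om) hσ') := by
    apply up_injective
    rw [up_mul, up_mul, up_map, up_map]
    have h5 : up (cV • W) = (c : Om) • up W := by
      ext i j
      rw [← hcV]
      rfl
    rw [h5]
    calc (c : Om) • up W * (up S).map (ρ : Om ≃+* Om)
        = PP r.Q (s * t * s⁻¹) ρ * (up S).map ρ := by rw [e1]; rfl
      _ = up S * (up T).map σ := by rw [← e2, e3]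
      _ = _ := rfl
  have e5 := congrArg red e4
  rw [red_mul, red_mul, red_map_triv (ρ : Om ≃+* Om) hρV hρ1] at e5
  have h6 : red (cV • W) = (IsLocalRing.residue V cV * IsLocalRing.residue V l ^ q) •
      (1 : Matrix (Fin (r.b * D.d)) (Fin (r.b * D.d)) (IsLocalRing.ResidueField V)) := by
    have h7 : red (cV • W) = IsLocalRing.residue V cV • red W := by
      ext i j; simp [red]
    rw [h7, hW2, smul_smul]
  have h8 : red (T.map (resV V (σ : Om ≃+* Om) hσ')) =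
      IsLocalRing.residue V ⟨σ l, (hσ l).2 l.2⟩ •
      (1 : Matrix (Fin (r.b * D.d)) (Fin (r.b * D.d)) (IsLocalRing.ResidueField V)) := by
    ext i j
    have h9 := congrFun (congrFun hl i) j
    rw [Matrix.smul_apply, smul_eq_mul, Matrix.one_apply] at h9 ⊢
    change IsLocalRing.residue V (resV V (σ : Om ≃+* Om) hσ' (T i j)) = _
    change IsLocalRing.residue V (T i j) = _ at h9
    by_cases hij : i = j
    · rw [if_pos hij, mul_one] at h9 ⊢
      rw [residue_eq_iff] at h9 ⊢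
      have h10 := val_lt_one_map σ hσ _ h9
      rw [map_sub] at h10
      exact h10
    · rw [if_neg hij, mul_zero] at h9 ⊢
      rw [← map_zero (IsLocalRing.residue V), residue_eq_iff] at h9 ⊢
      rw [ZeroMemClass.coe_zero, sub_zero] at h9 ⊢
      exact val_lt_one_map σ hσ _ h9
  rw [h6, h8, smul_mul_assoc, one_mul, mul_smul_comm, mul_one] at e5
  have hSne : ∃ i j, red S i j ≠ 0 := by
    by_contra hcon
    push Not at hcon
    have h11 : red S = 0 := by ext i j; exact hcon i j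
    have h12 : (red S).det = 1 := by
      have h13 : (red S).det = IsLocalRing.residue V S.det :=
        (RingHom.map_det (IsLocalRing.residue V) S).symm
      rw [h13, hSdet, map_one]
    have : Nonempty (Fin (r.b * D.d)) := ⟨⟨0, r.pos⟩⟩
    rw [h11, Matrix.det_zero] at h12
    exact zero_ne_one h12
  obtain ⟨i, j, hij⟩ := hSne
  have h14 := congrFun (congrFun e5 i) j
  rw [Matrix.smul_apply, Matrix.smul_apply, smul_eq_mul, smul_eq_mul] at h14
  exact mul_right_cancel₀ hij h14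

theorem ob_of_rep [IsAlgClosed Om] [Algebra.IsAlgebraic K Om] [IsAzumaya K A] (r : Rep D V)
    (σ τ : Om ≃ₐ[K] Om)
    (hσ : ∀ x, σ x ∈ V ↔ x ∈ V) (hτ : ∀ x, τ x ∈ V ↔ x ∈ V)
    (hτ1 : ∀ x ∈ V, V.valuation (τ x - x) < 1) (hd : V.valuation (D.d : Om) = 1) :
    ∃ (E1 : IntermediateField K Om) (n : ℕ), FiniteDimensional K E1 ∧ n ≠ 0 ∧ ∀ q : ℕ,
      (∀ x ∈ E1, (σ * τ * σ⁻¹) x = (τ ^ q) x) → (∀ ζ : Om, ζ ^ n = 1 → σ ζ = ζ ^ q) →
      OB D (AlgEquiv.restrictNormalHom D.E σ) (AlgEquiv.restrictNormalHom D.E τ) q := by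
  let S : Set Om := Set.range fun ij : Fin (r.b * D.d) × Fin (r.b * D.d) => r.Q⁻¹ ij.1 ij.2
  have hSfin : Finite S := Set.finite_range _
  have hfin : FiniteDimensional K (IntermediateField.adjoin K S) :=
    IntermediateField.finiteDimensional_adjoin (K := K) (S := S)
      fun x _ => Algebra.IsIntegral.isIntegral x
  refine ⟨IntermediateField.adjoin K S ⊔ D.E, r.b * D.d, inferInstance, r.pos.ne', ?_⟩
  intro q h1 h2
  obtain ⟨s, hs⟩ := Ghat.pr_surjective D (AlgEquiv.restrictNormalHom D.E σ)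
  obtain ⟨t, ht⟩ := Ghat.pr_surjective D (AlgEquiv.restrictNormalHom D.E τ)
  rw [Ghat.pr_apply] at hs ht
  have hos : Over s σ := by
    intro e
    rw [hs, restrict_apply]
  have hot : Over t τ := by
    intro e
    rw [ht, restrict_apply]
  refine ⟨s, t, hs, ht, ?_⟩
  have hg : (s * t * s⁻¹).g = (t ^ q).g := by
    have h3 : (t ^ q).g = t.g ^ q := map_pow (Ghat.pr D) t q
    rw [h3, Ghat.mul_g, Ghat.mul_g, Ghat.inv_g, hs, ht, ← map_inv, ← map_mul, ← map_mul,
      ← map_pow, restrict_eq_iff]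
    intro x hx
    exact h1 x ((le_sup_right : D.E ≤ _) hx)
  obtain ⟨c, hc1, hc2⟩ := ghat_scalar D (s * t * s⁻¹) (t ^ q) hg
  have hc1' : (c : Om) ^ D.d = 1 := by
    have := congrArg (fun e : D.E => (e : Om)) hc1
    simpa using this
  have hcV : (c : Om) ∈ V := by
    rw [← ValuationSubring.valuation_le_one_iff]
    have h5 := congrArg V.valuation hc1'
    rw [map_pow, map_one] at h5
    exact (pow_le_one_iff D.hd).1 h5.le
  obtain ⟨T, hT, hTdet⟩ := int_lift r τ hτ t hot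
  obtain ⟨l0, hl0, hl1⟩ := red_tau r τ hτ hτ1 t hot T hT hTdet
  obtain ⟨z, hz1, hz2⟩ := exists_root_lift (V := V) (r.b * D.d) r.pos l0 hl1
  rw [← hz2] at hl0 hl1
  have hQ : ∀ i j, (σ * τ * σ⁻¹) (r.Q⁻¹ i j) = (τ ^ q) (r.Q⁻¹ i j) := by
    intro i j
    refine h1 _ ((le_sup_left : IntermediateField.adjoin K S ≤ _) ?_)
    exact IntermediateField.subset_adjoin K S ⟨(i, j), rfl⟩
  have key := ob_eq r σ τ hσ hτ hτ1 s t hos hot c q hc2 hQ ⟨c, hcV⟩ rfl z T hT hl0
  have h6 : IsLocalRing.residue V ⟨σ z, (hσ z).2 z.2⟩ = IsLocalRing.residue V z ^ q := by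
    rw [← map_pow]
    congr 1
    apply Subtype.val_injective
    change σ z = ((z ^ q : V) : Om)
    rw [h2 _ hz1]
    push_cast
    rfl
  rw [h6] at key
  have hz0 : IsLocalRing.residue V z ≠ 0 := by
    intro h0
    rw [h0, zero_pow r.pos.ne'] at hl1
    exact zero_ne_one hl1
  have h7 : IsLocalRing.residue V ⟨c, hcV⟩ = 1 := by
    have h8 : IsLocalRing.residue V ⟨c, hcV⟩ * IsLocalRing.residue V z ^ q =
        1 * IsLocalRing.residue V z ^ q := by rw [key, one_mul]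
    exact mul_right_cancel₀ (pow_ne_zero _ hz0) h8
  have h9 : (c : Om) = 1 := by
    refine root_eq_one D.d hd _ hc1' ?_
    rw [← map_one (IsLocalRing.residue V), residue_eq_iff] at h7
    exact h7
  have h10 : c = 1 := Subtype.val_injective h9
  refine Ghat.ext' ?_ hg
  rw [hc2, h10, one_smul]

end Pool.Agent.Helper82.SR
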