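import Pool.Agent.Helper82.SR.Specialise
import Pool.Agent.Helper82.SR.ObRep
import Pool.Agent.Helper82.SR.Blocks
import Pool.Agent.Helper1.SR.Skol
import Pool.Agent.Helper1.SR.AzBase

set_option autoImplicit false

/-!
# PROJECT SB (MP_ad201b_nt), block R7: existence of the representation over the valuation ring
-/

open scoped TensorProduct

namespace Pool.Agent.Helper82.SR

open Pool.Agent.Helper1.SR
open Pool.Agent.Helper8.BR

theorem mul_size {R A B : Type} [CommRing R] [Ring A] [Algebra R A] [Ring B] [Algebra R B]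
    {n m : ℕ} (c n' m' : ℕ) (hn : n' = c * n) (hm : m' = c * m)
    (e : Matrix (Fin n) (Fin n) A ≃ₐ[R] Matrix (Fin m) (Fin m) B) :
    Nonempty (Matrix (Fin n') (Fin n') A ≃ₐ[R] Matrix (Fin m') (Fin m') B) := by
  subst hn hm
  let f1 : Matrix (Fin c) (Fin c) (Matrix (Fin n) (Fin n) A) ≃ₐ[R]
      Matrix (Fin (c * n)) (Fin (c * n)) A :=
    (Matrix.compAlgEquiv (Fin c) (Fin n) A R).trans (Matrix.reindexAlgEquiv R A finProdFinEquiv)
  let f2 : Matrix (Fin c) (Fin c) (Matrix (Fin m) (Fin m) B) ≃ₐ[R]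
      Matrix (Fin (c * m)) (Fin (c * m)) B :=
    (Matrix.compAlgEquiv (Fin c) (Fin m) B R).trans (Matrix.reindexAlgEquiv R B finProdFinEquiv)
  exact ⟨f1.symm.trans ((AlgEquiv.mapMatrix e).trans f2)⟩

/-- an Azumaya algebra over an algebraically closed field is split -/
theorem split_closed (L C : Type) [Field L] [IsAlgClosed L] [Ring C] [Algebra L C]
    [IsAzumaya L C] : BrEq L C L := by
  have h1 := az_simple L C
  have h2 : Module.Finite L C := inferInstance
  obtain ⟨n, hn, ⟨e⟩⟩ := IsSimpleRing.exists_algEquiv_matrix_of_isAlgClosed L C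
  exact (BrEq.of_algEquiv e).trans (BrEq.matrix L L n hn.ne)

/-- matrices over a base change are spanned by matrices over the original algebra -/
theorem span_map {R S A : Type} [CommRing R] [CommRing S] [Algebra R S] [Ring A] [Algebra R A]
    {N : ℕ} : Submodule.span S (Set.range fun x : Matrix (Fin N) (Fin N) A =>
      x.map (fun a => (1 : S) ⊗ₜ[R] a)) = ⊤ := by
  rw [eq_top_iff]
  rintro M -
  rw [Matrix.matrix_eq_sum_single M]
  refine Submodule.sum_mem _ fun i _ => Submodule.sum_mem _ fun j _ => ?_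
  generalize M i j = t
  induction t using TensorProduct.induction_on with
  | zero => rw [Matrix.single_zero]; exact Submodule.zero_mem _
  | add s t hs ht =>
    rw [Matrix.single_add]
    exact Submodule.add_mem _ hs ht
  | tmul v a =>
    have h : Matrix.single i j (v ⊗ₜ[R] a) =
        v • (Matrix.single i j a).map (fun a => (1 : S) ⊗ₜ[R] a) := by
      ext k l
      rw [Matrix.smul_apply, Matrix.map_apply, Matrix.single_apply, Matrix.single_apply]
      split_ifs
      · rw [TensorProduct.smul_tmul', smul_eq_mul, mul_one]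
      · rw [TensorProduct.tmul_zero, smul_zero]
    rw [h]
    exact Submodule.smul_mem _ _ (Submodule.subset_span ⟨_, rfl⟩)

/-- base change commutes with matrices -/
noncomputable def baseMat (R L C : Type) [CommRing R] [Field L] [Algebra R L] [Ring C]
    [Algebra R C] (n : ℕ) :
    L ⊗[R] (Matrix (Fin n) (Fin n) C) ≃ₐ[L] Matrix (Fin n) (Fin n) (L ⊗[R] C) :=
  have f1 : L ≃ₐ[L] Matrix Unit Unit L := (Matrix.uniqueAlgEquiv).symm
  have f2 := Algebra.TensorProduct.congr f1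
    (AlgEquiv.refl (R := R) (A₁ := Matrix (Fin n) (Fin n) C))
  have f3 := Matrix.kroneckerTMulAlgEquiv Unit (Fin n) R L L C
  have f4 := Matrix.reindexAlgEquiv L (L ⊗[R] C) (Equiv.uniqueProd (Fin n) Unit)
  (f2.trans f3).trans f4

/-- the representation exists, from the two matrix isomorphisms -/
theorem exists_rep {K Om A : Type} [Field K] [Field Om] [Algebra K Om]
    [IsAlgClosed Om] [Ring A] [Algebra K A]
    (D : Datum K Om A) (V : ValuationSubring Om)
    (R Ax : Type) [CommRing R] [Algebra R K] [Algebra R V] [Algebra R Om]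
    [IsScalarTower R V Om] [IsScalarTower R K Om]
    [Ring Ax] [Algebra R Ax] [IsAzumaya R Ax] (hAx : BrEq K (K ⊗[R] Ax) A) :
    Nonempty (Rep D V) := by
  have haz1 := az_baseChange' R V Ax
  have hfree := free_of_local V (V ⊗[R] Ax)
  have haz2 := az_baseChange V Om (V ⊗[R] Ax)
  have haz5 := az_baseChange' R K Ax
  have hrank : Module.finrank V (V ⊗[R] Ax) = Module.finrank K (K ⊗[R] Ax) := by
    rw [← Module.finrank_baseChange (R := Om) (S := V) (M' := V ⊗[R] Ax),
      ← Module.finrank_baseChange (R := Om) (S := K) (M' := K ⊗[R] Ax),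
      (vCancel R V Om Om Ax).toLinearEquiv.finrank_eq,
      (vCancel R K Om Om Ax).toLinearEquiv.finrank_eq]
  obtain ⟨N1, m1, hN1, hm1, ⟨e1⟩⟩ : BrEq V (V ⊗[R] Ax) V :=
    split_of_fractionRing V Om (V ⊗[R] Ax) (split_closed Om _)
  obtain ⟨N2, m2, hN2, hm2, ⟨e2⟩⟩ := hAx
  obtain ⟨N, hN⟩ : ∃ N, N = N2 * N1 := ⟨_, rfl⟩
  obtain ⟨b, hb⟩ : ∃ b, b = N1 * m2 := ⟨_, rfl⟩
  obtain ⟨f2⟩ := mul_size N1 N b (by rw [hN, mul_comm]) hb e2
  have hN0 : N ≠ 0 := by rw [hN]; exact mul_ne_zero hN2 hN1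
  have hb0 : b ≠ 0 := by rw [hb]; exact mul_ne_zero hN1 hm2
  have hbd0 : b * D.d ≠ 0 := mul_ne_zero hb0 D.hd
  have hdimK : N * N * Module.finrank K (K ⊗[R] Ax) = (b * D.d) * (b * D.d) := by
    have h1 := f2.toLinearEquiv.finrank_eq
    rw [Module.finrank_matrix, Module.finrank_matrix, Fintype.card_fin, Fintype.card_fin,
      D.hdim] at h1
    rw [h1]
    ring
  have hsize : N2 * m1 = b * D.d := by
    obtain ⟨f1⟩ := mul_size N2 N (N2 * m1) hN rfl e1
    have h1 := f1.toLinearEquiv.finrank_eq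
    rw [Module.finrank_matrix, Module.finrank_matrix, Fintype.card_fin, Fintype.card_fin,
      hrank, Module.finrank_self, mul_one, hdimK] at h1
    exact (Nat.mul_self_inj.1 h1).symm
  obtain ⟨f1⟩ := mul_size N2 N (b * D.d) hN hsize.symm e1
  have haz3 := az_matrix K (K ⊗[R] Ax) N hN0
  have haz4 : IsAzumaya K (K ⊗[R] (Matrix (Fin N) (Fin N) Ax)) :=
    IsAzumaya.of_AlgEquiv K _ _ (baseMat R K Ax N).symm
  -- the two representations over `Om`
  let g1 : Matrix (Fin N) (Fin N) Ax →ₐ[R] Matrix (Fin (b * D.d)) (Fin (b * D.d)) V :=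
    (f1.toAlgHom.restrictScalars R).comp
      (Algebra.TensorProduct.includeRight : Ax →ₐ[R] V ⊗[R] Ax).mapMatrix
  let g1' : Matrix (Fin N) (Fin N) Ax →ₐ[R] Matrix (Fin (b * D.d)) (Fin (b * D.d)) Om :=
    ((Algebra.ofId V Om).mapMatrix.restrictScalars R).comp g1
  let g2 : Matrix (Fin N) (Fin N) Ax →ₐ[R] Matrix (Fin (b * D.d)) (Fin (b * D.d)) Om :=
    (((D.E.val.mapMatrix.comp (Wb D b)).comp f2.toAlgHom).restrictScalars R).comp
      (Algebra.TensorProduct.includeRight : Ax →ₐ[R] K ⊗[R] Ax).mapMatrix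
  let F1 : K ⊗[R] (Matrix (Fin N) (Fin N) Ax) →ₐ[K] Matrix (Fin (b * D.d)) (Fin (b * D.d)) Om :=
    Algebra.TensorProduct.lift (Algebra.ofId K _) g1' (fun x y => Algebra.commutes x _)
  let F2 : K ⊗[R] (Matrix (Fin N) (Fin N) Ax) →ₐ[K] Matrix (Fin (b * D.d)) (Fin (b * D.d)) Om :=
    Algebra.TensorProduct.lift (Algebra.ofId K _) g2 (fun x y => Algebra.commutes x _)
  have hdim : Module.finrank K (K ⊗[R] (Matrix (Fin N) (Fin N) Ax)) =
      (b * D.d) * (b * D.d) := by
    rw [(baseMat R K Ax N).toLinearEquiv.finrank_eq, Module.finrank_matrix, Fintype.card_fin,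
      hdimK]
  obtain ⟨Q0, hQ0, hconj⟩ := exists_conj K Om (K ⊗[R] (Matrix (Fin N) (Fin N) Ax)) (b * D.d)
    hbd0 hdim F1 F2
  have hQ0d : Q0.det ≠ 0 := ((Matrix.isUnit_iff_isUnit_det Q0).1 hQ0).ne_zero
  obtain ⟨q, hq⟩ := IsAlgClosed.exists_pow_nat_eq Q0.det (Nat.pos_of_ne_zero hbd0)
  have hq0 : q ≠ 0 := by
    intro h0
    rw [h0, zero_pow hbd0] at hq
    exact hQ0d hq.symm
  refine ⟨⟨b, hb0, Matrix (Fin N) (Fin N) Ax, fun x => g1 x,
    fun x => Wb D b (f2 (x.map (fun a => (1 : K) ⊗ₜ[R] a))), q⁻¹ • Q0, ?_, ?_, ?_, ?_⟩⟩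
  · -- span
    have h1 : (Set.range fun x => g1 x) = f1 '' (Set.range fun x : Matrix (Fin N) (Fin N) Ax =>
        x.map (fun a => (1 : V) ⊗ₜ[R] a)) := by
      rw [← Set.range_comp]
      rfl
    rw [h1]
    have h2 : Submodule.span V (f1 '' (Set.range fun x : Matrix (Fin N) (Fin N) Ax =>
        x.map (fun a => (1 : V) ⊗ₜ[R] a))) = Submodule.map f1.toLinearEquiv.toLinearMap
        (Submodule.span V (Set.range fun x : Matrix (Fin N) (Fin N) Ax =>
        x.map (fun a => (1 : V) ⊗ₜ[R] a))) := by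
      rw [Submodule.map_span]
      rfl
    rw [h2, span_map, Submodule.map_top, LinearMap.range_eq_top]
    exact f1.surjective
  · rw [Matrix.det_smul, Fintype.card_fin, inv_pow, hq, inv_mul_cancel₀ hQ0d]
  · intro x
    have h1 := hconj (1 ⊗ₜ[R] x)
    have h2 : F1 (1 ⊗ₜ[R] x) = up (g1 x) := by
      refine (Algebra.TensorProduct.lift_tmul _ _ _ 1 x).trans ?_
      rw [map_one, one_mul]
      rfl
    have h3 : F2 (1 ⊗ₜ[R] x) = (Wb D b (f2 (x.map (fun a => (1 : K) ⊗ₜ[R] a)))).map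
        (algebraMap D.E Om) := by
      refine (Algebra.TensorProduct.lift_tmul _ _ _ 1 x).trans ?_
      rw [map_one, one_mul]
      rfl
    rw [h2, h3] at h1
    rw [mul_smul_comm, smul_mul_assoc, ← h1]
  · intro y x
    exact Bk_comm D b _ y

/-- (R7) the obstruction of a pair `(σ, τ)` vanishes if `σ, τ` preserve a valuation ring `V` of
`Om` such that `τ` acts trivially on the residue field, `d` is invertible in `V` and the class of
`A` comes from an Azumaya algebra over a ring `R` mapped into `V` -/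
theorem ob_of_valuation' {K Om A : Type} [Field K] [Field Om] [Algebra K Om]
    [IsAlgClosed Om] [Algebra.IsAlgebraic K Om] [Ring A] [Algebra K A] [IsAzumaya K A]
    (D : Datum K Om A) (σ τ : Om ≃ₐ[K] Om) (V : ValuationSubring Om)
    (hσ : ∀ x, σ x ∈ V ↔ x ∈ V) (hτ : ∀ x, τ x ∈ V ↔ x ∈ V)
    (hτ1 : ∀ x ∈ V, V.valuation (τ x - x) < 1) (hd : V.valuation (D.d : Om) = 1)
    (R Ax : Type) [CommRing R] [Algebra R K]
    (hR : ∀ r : R, algebraMap K Om (algebraMap R K r) ∈ V)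
    [Ring Ax] [Algebra R Ax] [IsAzumaya R Ax] (hAx : BrEq K (K ⊗[R] Ax) A) :
    ∃ (E1 : IntermediateField K Om) (n : ℕ), FiniteDimensional K E1 ∧ n ≠ 0 ∧ ∀ q : ℕ,
      (∀ x ∈ E1, (σ * τ * σ⁻¹) x = (τ ^ q) x) → (∀ ζ : Om, ζ ^ n = 1 → σ ζ = ζ ^ q) →
      OB D (AlgEquiv.restrictNormalHom D.E σ) (AlgEquiv.restrictNormalHom D.E τ) q := by
  let i1 : Algebra R Om := ((algebraMap K Om).comp (algebraMap R K)).toAlgebra
  let i2 : Algebra R V :=
    (((algebraMap K Om).comp (algebraMap R K)).codRestrict V.toSubring hR).toAlgebra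
  have j1 : IsScalarTower R V Om := IsScalarTower.of_algebraMap_eq fun _ => rfl
  have j2 : IsScalarTower R K Om := IsScalarTower.of_algebraMap_eq fun _ => rfl
  obtain ⟨r⟩ := exists_rep D V R Ax hAx
  exact ob_of_rep r σ τ hσ hτ hτ1 hd

/-- (R7) the obstruction of a pair `(σ, τ)` vanishes if `σ, τ` preserve a valuation ring `V` of
`Om` such that `τ` acts trivially on the residue field, `d` is invertible in `V` and the class of
`A` comes from an Azumaya algebra over a local ring `R` contained in `V` -/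
theorem ob_of_valuation {K Om A : Type} [Field K] [CharZero K] [Field Om] [Algebra K Om]
    [IsAlgClosed Om] [Algebra.IsAlgebraic K Om] [Ring A] [Algebra K A] [IsAzumaya K A]
    (D : Datum K Om A) (σ τ : Om ≃ₐ[K] Om) (V : ValuationSubring Om)
    (hσ : ∀ x, σ x ∈ V ↔ x ∈ V) (hτ : ∀ x, τ x ∈ V ↔ x ∈ V)
    (hτ1 : ∀ x ∈ V, V.valuation (τ x - x) < 1) (hd : V.valuation (D.d : Om) = 1)
    (R Ax : Type) [CommRing R] [IsLocalRing R] [Algebra R K]
    (hR : ∀ r : R, algebraMap K Om (algebraMap R K r) ∈ V)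
    [Ring Ax] [Algebra R Ax] [IsAzumaya R Ax] (hAx : BrEq K (K ⊗[R] Ax) A) :
    ∃ (E1 : IntermediateField K Om) (n : ℕ), FiniteDimensional K E1 ∧ n ≠ 0 ∧ ∀ q : ℕ,
      (∀ x ∈ E1, (σ * τ * σ⁻¹) x = (τ ^ q) x) → (∀ ζ : Om, ζ ^ n = 1 → σ ζ = ζ ^ q) →
      OB D (AlgEquiv.restrictNormalHom D.E σ) (AlgEquiv.restrictNormalHom D.E τ) q := by
  exact ob_of_valuation' D σ τ V hσ hτ hτ1 hd R Ax hR hAx

end Pool.Agent.Helper82.SR
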