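import Pool.Agent.Helper82.SR.VInj

set_option autoImplicit false

/-!
# PROJECT SB (MP_ad201b_nt), block R6: specialisation through a valuation ring
-/

open scoped TensorProduct

namespace Pool.Agent.Helper82.SR

open Pool.Agent.Helper8.BR

/-- The isomorphism `A ⊗[S] (S ⊗[R] B) ≃ₐ[T] A ⊗[R] B`. -/
noncomputable def vCancel (R S T A B : Type) [CommRing R] [CommRing S] [CommRing T]
    [Algebra R S] [Algebra R T] [Algebra S T] [Ring A] [Algebra R A] [Algebra S A] [Algebra T A]
    [IsScalarTower R S A] [IsScalarTower R T A] [IsScalarTower S T A]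
    [Ring B] [Algebra R B] : A ⊗[S] (S ⊗[R] B) ≃ₐ[T] A ⊗[R] B :=
  AlgEquiv.symm <| AlgEquiv.ofLinearEquiv
    (TensorProduct.AlgebraTensorModule.cancelBaseChange R S T A B).symm
    (by simp [Algebra.TensorProduct.one_def]) <|
      LinearMap.map_mul_of_map_mul_tmul (fun _ _ _ _ ↦ by simp)

/-- an Azumaya algebra over a local ring is free -/
theorem free_of_local (R A : Type) [CommRing R] [IsLocalRing R] [Ring A] [Algebra R A]
    [IsAzumaya R A] : Module.Free R A :=
  have : Module.Finite R A := inferInstance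
  have : Module.Projective R A := inferInstance
  Module.free_of_flat_of_isLocalRing

/-- (R6) specialisation: `O` is a valuation ring with fraction field `L` and a homomorphism to
`kv`; `Ax` is Azumaya over `R` (the local ring of a point of `X`), `B` over `F` -/
theorem specialise (R O F L kv Ax B : Type) [CommRing R] [IsLocalRing R] [CommRing O]
    [IsDomain O] [ValuationRing O] [Field F] [Field L] [Field kv]
    [Algebra R O] [Algebra F O] [Algebra O L] [IsFractionRing O L] [Algebra R L] [Algebra F L]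
    [IsScalarTower R O L] [IsScalarTower F O L] [Algebra O kv] [Algebra R kv] [Algebra F kv]
    [IsScalarTower R O kv] [IsScalarTower F O kv]
    [Ring Ax] [Algebra R Ax] [IsAzumaya R Ax] [Ring B] [Algebra F B] [IsAzumaya F B]
    (h : BrEq L (L ⊗[R] Ax) (L ⊗[F] B)) : BrEq kv (kv ⊗[R] Ax) (kv ⊗[F] B) := by
  have := free_of_local R Ax
  have := az_baseChange R O Ax
  have := az_baseChange F O B
  have h1 : BrEq L (L ⊗[O] (O ⊗[R] Ax)) (L ⊗[O] (O ⊗[F] B)) :=
    ((BrEq.of_algEquiv (vCancel R O L L Ax)).trans h).trans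
      (BrEq.of_algEquiv (vCancel F O L L B)).symm
  have h2 : BrEq O (O ⊗[R] Ax) (O ⊗[F] B) := BrEq.of_valuation O L _ _ h1
  have h3 : BrEq kv (kv ⊗[O] (O ⊗[R] Ax)) (kv ⊗[O] (O ⊗[F] B)) := BrEq.baseChange kv h2
  exact ((BrEq.of_algEquiv (vCancel R O kv kv Ax)).symm.trans h3).trans
    (BrEq.of_algEquiv (vCancel F O kv kv B))

end Pool.Agent.Helper82.SR
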