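import Mathlib

set_option autoImplicit false

/-!
# PROJECT SB (MP_ad201b_nt), block R7: matrices over a local ring and over its residue field
-/

namespace Pool.Agent.Helper82.SR

section core

variable {V : Type} [CommRing V] [IsLocalRing V] {ι : Type} [Fintype ι] [DecidableEq ι]

/-- reduction of a matrix -/
noncomputable abbrev red (M : Matrix ι ι V) : Matrix ι ι (IsLocalRing.ResidueField V) :=
  M.map (IsLocalRing.residue V)

theorem red_mul (M N : Matrix ι ι V) : red (M * N) = red M * red N :=
  Matrix.map_mul (f := IsLocalRing.residue V)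

theorem red_surjective (Y : Matrix ι ι (IsLocalRing.ResidueField V)) :
    ∃ M : Matrix ι ι V, red M = Y := by
  choose f hf using fun i j => IsLocalRing.residue_surjective (Y i j)
  exact ⟨Matrix.of f, by ext i j; exact hf i j⟩

/-- a matrix over the residue field that commutes with the reductions of a spanning family is
scalar -/
theorem core_scalar {X : Type} (ψ : X → Matrix ι ι V)
    (hspan : Submodule.span V (Set.range ψ) = ⊤)
    (P : Matrix ι ι (IsLocalRing.ResidueField V))
    (hP : ∀ x, P * red (ψ x) = red (ψ x) * P) :
    ∃ c : IsLocalRing.ResidueField V, P = c • (1 : Matrix ι ι (IsLocalRing.ResidueField V)) := by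
  let S : Submodule V (Matrix ι ι V) :=
    { carrier := {Y | P * red Y = red Y * P}
      add_mem' := by
        intro a b ha hb
        change P * red (a + b) = red (a + b) * P
        have h1 : red (a + b) = red a + red b := by
          ext i j; simp [red]
        rw [h1, mul_add, add_mul, ha, hb]
      zero_mem' := by
        change P * red 0 = red 0 * P
        have h1 : red (0 : Matrix ι ι V) = 0 := by
          ext i j; simp [red]
        rw [h1, mul_zero, zero_mul]
      smul_mem' := by
        intro c a ha
        change P * red (c • a) = red (c • a) * P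
        have h1 : red (c • a) = (IsLocalRing.residue V c) • red a := by
          ext i j; simp [red]
        rw [h1, mul_smul_comm, smul_mul_assoc, ha] }
  have hS : S = ⊤ := by
    rw [eq_top_iff, ← hspan, Submodule.span_le]
    rintro _ ⟨x, rfl⟩
    exact hP x
  have hall : ∀ Y : Matrix ι ι (IsLocalRing.ResidueField V), P * Y = Y * P := by
    intro Y
    obtain ⟨M, rfl⟩ := red_surjective Y
    have : M ∈ S := by rw [hS]; trivial
    exact this
  have h2 : P ∈ Set.range (Matrix.scalar (α := IsLocalRing.ResidueField V) ι) :=
    Matrix.mem_range_scalar_of_commute_single fun i j _ => (hall _).symm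
  obtain ⟨c, rfl⟩ := h2
  refine ⟨c, ?_⟩
  ext i j
  simp [Matrix.scalar_apply, Matrix.diagonal, Matrix.one_apply]

/-- semilinear intertwiners of a spanning family with nonzero reduction are invertible -/
theorem core_unit {X : Type} (ψ : X → Matrix ι ι V)
    (hspan : Submodule.span V (Set.range ψ) = ⊤) (g : V ≃+* V) (U : Matrix ι ι V)
    (hU : ∀ x, U * (ψ x).map g = ψ x * U) (h0 : red U ≠ 0) : IsUnit U.det := by
  rw [← IsLocalRing.residue_ne_zero_iff_isUnit]
  intro hdet
  have hdet' : (red U).det = 0 := by
    rw [← hdet]
    exact (RingHom.map_det (IsLocalRing.residue V) U).symm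
  obtain ⟨w, hw0, hw⟩ := Matrix.exists_mulVec_eq_zero_iff.2 hdet'
  let S : Submodule V (Matrix ι ι V) :=
    { carrier := {Y | Matrix.mulVec (red U) (Matrix.mulVec (red (Y.map g)) w) = 0}
      add_mem' := by
        intro a b ha hb
        change Matrix.mulVec (red U) (Matrix.mulVec (red ((a + b).map g)) w) = 0
        have h1 : red ((a + b).map g) = red (a.map g) + red (b.map g) := by
          ext i j; simp [red]
        rw [h1, Matrix.add_mulVec, Matrix.mulVec_add]
        change _ + _ = 0
        rw [show Matrix.mulVec (red U) (Matrix.mulVec (red (a.map g)) w) = 0 from ha,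
          show Matrix.mulVec (red U) (Matrix.mulVec (red (b.map g)) w) = 0 from hb, add_zero]
      zero_mem' := by
        change Matrix.mulVec (red U) (Matrix.mulVec (red ((0 : Matrix ι ι V).map g)) w) = 0
        have h1 : red ((0 : Matrix ι ι V).map g) = 0 := by
          ext i j; simp [red]
        rw [h1, Matrix.zero_mulVec, Matrix.mulVec_zero]
      smul_mem' := by
        intro c a ha
        change Matrix.mulVec (red U) (Matrix.mulVec (red ((c • a).map g)) w) = 0
        have h1 : red ((c • a).map g) = (IsLocalRing.residue V (g c)) • red (a.map g) := by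
          ext i j; simp [red]
        rw [h1, Matrix.smul_mulVec, Matrix.mulVec_smul,
          show Matrix.mulVec (red U) (Matrix.mulVec (red (a.map g)) w) = 0 from ha, smul_zero] }
  have hS : S = ⊤ := by
    rw [eq_top_iff, ← hspan, Submodule.span_le]
    rintro _ ⟨x, rfl⟩
    change Matrix.mulVec (red U) (Matrix.mulVec (red ((ψ x).map g)) w) = 0
    rw [Matrix.mulVec_mulVec, ← red_mul, hU, red_mul, ← Matrix.mulVec_mulVec, hw,
      Matrix.mulVec_zero]
  have hall : ∀ Y : Matrix ι ι (IsLocalRing.ResidueField V),
      Matrix.mulVec (red U) (Matrix.mulVec Y w) = 0 := by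
    intro Y
    obtain ⟨M, rfl⟩ := red_surjective Y
    have h1 : M.map g.symm ∈ S := by rw [hS]; trivial
    have h2 : (M.map g.symm).map g = M := by ext i j; simp
    change Matrix.mulVec (red U) (Matrix.mulVec (red ((M.map g.symm).map g)) w) = 0 at h1
    rw [h2] at h1
    exact h1
  obtain ⟨k, hk⟩ : ∃ k, w k ≠ 0 := by
    by_contra hcon
    push Not at hcon
    exact hw0 (funext hcon)
  apply h0
  ext i j
  have h3 := congrFun (hall (Matrix.single j k (w k)⁻¹)) i
  have h4 : Matrix.mulVec (Matrix.single j k (w k)⁻¹) w = Pi.single j 1 := by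
    ext l
    rw [Matrix.single_mulVec]
    by_cases hl : l = j
    · subst hl
      simp [hk]
    · simp [hl]
  rw [h4] at h3
  simpa using h3

end core

end Pool.Agent.Helper82.SR
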