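import Pool.Agent.Helper82.SR.Core

set_option autoImplicit false

/-!
# PROJECT SB (MP_ad201b_nt), block R7: semilinear intertwiners have entries in the valuation ring
-/

namespace Pool.Agent.Helper82.SR

section

variable {Om : Type} [Field Om] (V : ValuationSubring Om)

/-- the restriction of a ring automorphism preserving `V` -/
noncomputable def resV (g : Om ≃+* Om) (hg : ∀ x, g x ∈ V ↔ x ∈ V) : V ≃+* V where
  toFun x := ⟨g x, (hg x).2 x.2⟩
  invFun x := ⟨g.symm x, (hg _).1 (by rw [RingEquiv.apply_symm_apply]; exact x.2)⟩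
  left_inv x := Subtype.ext (g.symm_apply_apply x)
  right_inv x := Subtype.ext (g.apply_symm_apply x)
  map_mul' x y := Subtype.ext (map_mul g _ _)
  map_add' x y := Subtype.ext (map_add g _ _)

theorem resV_coe (g : Om ≃+* Om) (hg : ∀ x, g x ∈ V ↔ x ∈ V) (x : V) :
    ((resV V g hg x : V) : Om) = g x := rfl

variable {V} {ι : Type} [Fintype ι] [DecidableEq ι]

/-- extension of scalars of a matrix from `V` to `Om` -/
abbrev up (M : Matrix ι ι V) : Matrix ι ι Om := M.map V.subtype

theorem up_mul (M N : Matrix ι ι V) : up (M * N) = up M * up N :=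
  Matrix.map_mul (f := V.subtype)

theorem up_injective {M N : Matrix ι ι V} (h : up M = up N) : M = N := by
  ext i j
  exact congrFun (congrFun h i) j

theorem up_map (g : Om ≃+* Om) (hg : ∀ x, g x ∈ V ↔ x ∈ V) (M : Matrix ι ι V) :
    up (M.map (resV V g hg)) = (up M).map g := by
  ext i j
  rfl

theorem entries_mem [Nonempty ι] {X : Type} (g : Om ≃+* Om) (hg : ∀ x, g x ∈ V ↔ x ∈ V)
    (ψ : X → Matrix ι ι V) (hspan : Submodule.span V (Set.range ψ) = ⊤) (P : Matrix ι ι Om)
    (hdet : P.det = 1) (hP : ∀ x, P * (up (ψ x)).map g = up (ψ x) * P) :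
    ∃ P' : Matrix ι ι V, up P' = P ∧ P'.det = 1 := by
  obtain ⟨⟨i0, j0⟩, hmax⟩ := Finite.exists_max fun ij : ι × ι => V.valuation (P ij.1 ij.2)
  obtain ⟨l, hl⟩ : ∃ l, l = P i0 j0 := ⟨_, rfl⟩
  have hl0 : l ≠ 0 := by
    intro h0
    have hP0 : P = 0 := by
      ext i j
      have h1 := hmax (i, j)
      change V.valuation (P i j) ≤ V.valuation (P i0 j0) at h1
      rw [← hl, h0, map_zero, le_zero_iff, map_eq_zero] at h1
      rw [h1, Matrix.zero_apply]
    rw [hP0, Matrix.det_zero] at hdet
    exact zero_ne_one hdet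
  have hmem : ∀ i j, l⁻¹ * P i j ∈ V := by
    intro i j
    rw [← ValuationSubring.valuation_le_one_iff, map_mul, map_inv₀]
    have h1 := hmax (i, j)
    change V.valuation (P i j) ≤ V.valuation (P i0 j0) at h1
    rw [← hl] at h1
    have hv : V.valuation l ≠ 0 := by rw [Ne, map_eq_zero]; exact hl0
    calc (V.valuation l)⁻¹ * V.valuation (P i j) ≤ (V.valuation l)⁻¹ * V.valuation l :=
          mul_le_mul_right h1 _
      _ = 1 := inv_mul_cancel₀ hv
  let U : Matrix ι ι V := Matrix.of fun i j => ⟨l⁻¹ * P i j, hmem i j⟩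
  have hU : up U = l⁻¹ • P := by
    ext i j
    rfl
  have hU0 : red U ≠ 0 := by
    intro h0
    have h1 := congrFun (congrFun h0 i0) j0
    have h2 : U i0 j0 = 1 := Subtype.ext (by
      change l⁻¹ * P i0 j0 = 1
      rw [← hl, inv_mul_cancel₀ hl0])
    change IsLocalRing.residue V (U i0 j0) = 0 at h1
    rw [h2, map_one] at h1
    exact one_ne_zero h1
  have hrel : ∀ x, U * (ψ x).map (resV V g hg) = ψ x * U := by
    intro x
    apply up_injective
    rw [up_mul, up_mul, up_map, hU, smul_mul_assoc, mul_smul_comm, hP]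
  have hunit : IsUnit U.det := core_unit ψ hspan (resV V g hg) U hrel hU0
  have hcard : Fintype.card ι ≠ 0 := Fintype.card_ne_zero
  have hP2 : P = l • up U := by
    rw [hU, smul_smul, mul_inv_cancel₀ hl0, one_smul]
  have hdetU : l ^ Fintype.card ι * (U.det : Om) = 1 := by
    have h1 : (up U).det = (U.det : Om) := (RingHom.map_det V.subtype U).symm
    rw [← h1, ← Matrix.det_smul, ← hP2, hdet]
  have hvU : V.valuation (U.det : Om) = 1 := by
    obtain ⟨u, hu⟩ := hunit
    rw [← hu]
    exact V.valuation_unit u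
  have hlV : l ∈ V := by
    rw [← ValuationSubring.valuation_le_one_iff]
    have h1 := congrArg V.valuation hdetU
    rw [map_mul, map_pow, hvU, mul_one, map_one] at h1
    exact (pow_le_one_iff hcard).1 h1.le
  refine ⟨(⟨l, hlV⟩ : V) • U, ?_, ?_⟩
  · rw [hP2]
    ext i j
    rfl
  · apply Subtype.val_injective
    have h1 : (up ((⟨l, hlV⟩ : V) • U)).det = (((⟨l, hlV⟩ : V) • U).det : Om) :=
      (RingHom.map_det V.subtype _).symm
    rw [← h1]
    have h2 : up ((⟨l, hlV⟩ : V) • U) = P := by
      rw [hP2]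
      ext i j
      rfl
    rw [h2, hdet]
    rfl

end

end Pool.Agent.Helper82.SR
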