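import Pool.Agent.Helper82.SR.Twist
import Pool.Agent.Helper82.SR.Entries
import Pool.Agent.Helper1.SR.FinGal

set_option autoImplicit false

/-!
# PROJECT SB (MP_ad201b_nt), block R7: the obstruction vanishes (from a representation over `V`)
-/

open scoped TensorProduct

namespace Pool.Agent.Helper82.SR

open Pool.Agent.Helper1.SR

variable {K Om : Type} [Field K] [Field Om] [Algebra K Om] {A : Type} [Ring A] [Algebra K A]

/-- a representation over `V` conjugate to the representation of the datum -/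
structure Rep (D : Datum K Om A) (V : ValuationSubring Om) where
  /-- number of blocks -/
  b : ℕ
  hb : b ≠ 0
  /-- index type -/
  X : Type
  /-- the representation over `V` -/
  ψ : X → Matrix (Fin (b * D.d)) (Fin (b * D.d)) V
  /-- the representation over `E` -/
  ω : X → Matrix (Fin (b * D.d)) (Fin (b * D.d)) D.E
  /-- the conjugating matrix -/
  Q : Matrix (Fin (b * D.d)) (Fin (b * D.d)) Om
  span : Submodule.span V (Set.range ψ) = ⊤
  det : Q.det = 1
  conj : ∀ x, up (ψ x) * Q = Q * (ω x).map (algebraMap D.E Om)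
  comm : ∀ (y : Ghat D) (x : X), Bk b y.M * ((ω x).map y.g).map (algebraMap D.E Om) =
    (ω x).map (algebraMap D.E Om) * Bk b y.M

variable {D : Datum K Om A} {V : ValuationSubring Om}

theorem Rep.pos (r : Rep D V) : 0 < r.b * D.d :=
  Nat.mul_pos (Nat.pos_of_ne_zero r.hb) (Nat.pos_of_ne_zero D.hd)

theorem rep_comm (r : Rep D V) (g : Om ≃ₐ[K] Om) (y : Ghat D) (hy : Over y g) (x : r.X) :
    PP r.Q y g * (up (r.ψ x)).map g = up (r.ψ x) * PP r.Q y g := by
  refine PP_comm r.det y g hy (up (r.ψ x)) ((r.ω x).map (algebraMap D.E Om))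
    (((r.ω x).map y.g).map (algebraMap D.E Om)) (r.conj x) ?_ (r.comm y x)
  ext i j
  exact hy (r.ω x i j)

theorem int_lift (r : Rep D V) (g : Om ≃ₐ[K] Om) (hg : ∀ x, g x ∈ V ↔ x ∈ V) (y : Ghat D)
    (hy : Over y g) :
    ∃ P : Matrix (Fin (r.b * D.d)) (Fin (r.b * D.d)) V, up P = PP r.Q y g ∧ P.det = 1 := by
  have : Nonempty (Fin (r.b * D.d)) := ⟨⟨0, r.pos⟩⟩
  exact entries_mem (g : Om ≃+* Om) hg r.ψ r.span (PP r.Q y g) (PP_det r.det y g)
    (rep_comm r g y hy)

theorem residue_eq_iff (x y : V) :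
    IsLocalRing.residue V x = IsLocalRing.residue V y ↔
      V.valuation ((x : Om) - (y : Om)) < 1 := by
  rw [← sub_eq_zero, ← map_sub, IsLocalRing.residue_eq_zero_iff,
    ValuationSubring.valuation_lt_one_iff]
  rfl

theorem red_map_triv {n : ℕ} (g : Om ≃+* Om) (hg : ∀ x, g x ∈ V ↔ x ∈ V)
    (h1 : ∀ x ∈ V, V.valuation (g x - x) < 1) (M : Matrix (Fin n) (Fin n) V) :
    red (M.map (resV V g hg)) = red M := by
  ext i j
  change IsLocalRing.residue V (resV V g hg (M i j)) = IsLocalRing.residue V (M i j)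
  rw [residue_eq_iff]
  exact h1 _ (M i j).2

theorem red_tau (r : Rep D V) (τ : Om ≃ₐ[K] Om) (hτ : ∀ x, τ x ∈ V ↔ x ∈ V)
    (hτ1 : ∀ x ∈ V, V.valuation (τ x - x) < 1) (y : Ghat D) (hy : Over y τ)
    (P : Matrix (Fin (r.b * D.d)) (Fin (r.b * D.d)) V) (hP : up P = PP r.Q y τ)
    (hdet : P.det = 1) : ∃ c : IsLocalRing.ResidueField V,
      red P = c • (1 : Matrix (Fin (r.b * D.d)) (Fin (r.b * D.d)) _) ∧ c ^ (r.b * D.d) = 1 := by
  have hτ' : ∀ x, (τ : Om ≃+* Om) x ∈ V ↔ x ∈ V := hτ
  obtain ⟨c, hc⟩ := core_scalar r.ψ r.span (red P) (by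
    intro x
    have h1 : P * (r.ψ x).map (resV V (τ : Om ≃+* Om) hτ') = r.ψ x * P := by
      apply up_injective
      rw [up_mul, up_mul, up_map, hP]
      exact rep_comm r τ y hy x
    have h2 := congrArg red h1
    rw [red_mul, red_mul, red_map_triv (τ : Om ≃+* Om) hτ' hτ1] at h2
    exact h2)
  refine ⟨c, hc, ?_⟩
  have h3 : (red P).det = 1 := by
    have h4 : (red P).det = IsLocalRing.residue V P.det :=
      (RingHom.map_det (IsLocalRing.residue V) P).symm
    rw [h4, hdet, map_one]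
  rw [hc, Matrix.det_smul, Matrix.det_one, mul_one, Fintype.card_fin] at h3
  exact h3

theorem Over.pow {y : Ghat D} {g : Om ≃ₐ[K] Om} (h : Over y g) (q : ℕ) :
    Over (y ^ q) (g ^ q) := by
  induction q with
  | zero =>
    rw [pow_zero, pow_zero]
    exact Over.one
  | succ q ih =>
    rw [pow_succ, pow_succ]
    exact ih.mul h

theorem pow_lift (r : Rep D V) (τ : Om ≃ₐ[K] Om) (hτ : ∀ x, τ x ∈ V ↔ x ∈ V)
    (hτ1 : ∀ x ∈ V, V.valuation (τ x - x) < 1) (t : Ghat D) (ht : Over t τ)
    (T : Matrix (Fin (r.b * D.d)) (Fin (r.b * D.d)) V) (hT : up T = PP r.Q t τ)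
    (c : IsLocalRing.ResidueField V)
    (hc : red T = c • (1 : Matrix (Fin (r.b * D.d)) (Fin (r.b * D.d)) _)) (q : ℕ) :
    ∃ W : Matrix (Fin (r.b * D.d)) (Fin (r.b * D.d)) V, up W = PP r.Q (t ^ q) (τ ^ q) ∧
      red W = c ^ q • (1 : Matrix (Fin (r.b * D.d)) (Fin (r.b * D.d)) _) := by
  have hτ' : ∀ x, (τ : Om ≃+* Om) x ∈ V ↔ x ∈ V := hτ
  induction q with
  | zero =>
    refine ⟨1, ?_, ?_⟩
    · rw [pow_zero, pow_zero, PP_one r.det]
      exact Matrix.map_one _ (map_zero _) (map_one _)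
    · rw [pow_zero, one_smul]
      exact Matrix.map_one _ (map_zero _) (map_one _)
  | succ q ih =>
    obtain ⟨W, hW1, hW2⟩ := ih
    refine ⟨T * W.map (resV V (τ : Om ≃+* Om) hτ'), ?_, ?_⟩
    · rw [up_mul, up_map, hT, hW1, pow_succ', pow_succ', PP_mul r.det _ _ _ _ ht]
      rfl
    · rw [red_mul, red_map_triv (τ : Om ≃+* Om) hτ' hτ1, hc, hW2, smul_mul_smul_comm, one_mul,
        ← pow_succ']

theorem val_lt_one_map (σ : Om ≃ₐ[K] Om) (hσ : ∀ x, σ x ∈ V ↔ x ∈ V) (y : Om)
    (hy : V.valuation y < 1) : V.valuation (σ y) < 1 := by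
  by_cases h0 : y = 0
  · rw [h0, map_zero, map_zero]
    exact zero_lt_one
  by_contra hcon
  push Not at hcon
  have h1 : (σ y)⁻¹ ∈ V := by
    rw [← ValuationSubring.valuation_le_one_iff, map_inv₀]
    exact inv_le_one_of_one_le₀ hcon
  rw [← map_inv₀, hσ, ← ValuationSubring.valuation_le_one_iff, map_inv₀] at h1
  have h2 : V.valuation y ≠ 0 := by rw [Ne, map_eq_zero]; exact h0
  have h3 : (1 : V.ValueGroup) < (V.valuation y)⁻¹ := (one_lt_inv₀ (zero_lt_iff.2 h2)).2 hy
  exact absurd h1 (not_le.2 h3)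

/-- roots of unity of the residue field lift -/
theorem exists_root_lift [IsAlgClosed Om] (n : ℕ) (hn : 0 < n) (c : IsLocalRing.ResidueField V)
    (hc : c ^ n = 1) : ∃ z : V, (z : Om) ^ n = 1 ∧ IsLocalRing.residue V z = c := by
  obtain ⟨l, rfl⟩ := IsLocalRing.residue_surjective c
  by_contra hcon
  push Not at hcon
  let p : Polynomial Om := Polynomial.X ^ n - Polynomial.C 1
  have hmon : p.Monic := Polynomial.monic_X_pow_sub_C 1 hn.ne'
  have hsplit : p = (p.roots.map fun a => Polynomial.X - Polynomial.C a).prod :=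
    (IsAlgClosed.splits p).eq_prod_roots_of_monic hmon
  have h1 : p.eval (l : Om) = (l : Om) ^ n - 1 := by simp [p]
  have h2 : V.valuation ((l : Om) ^ n - 1) < 1 := by
    have h3 : IsLocalRing.residue V (l ^ n) = IsLocalRing.residue V 1 := by
      rw [map_pow, hc, map_one]
    rw [residue_eq_iff] at h3
    exact_mod_cast h3
  have h4 : ∀ a ∈ p.roots, V.valuation ((l : Om) - a) = 1 := by
    intro a ha
    have ha1 : a ^ n = 1 := by
      have := (Polynomial.mem_roots hmon.ne_zero).1 ha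
      rw [Polynomial.IsRoot.def] at this
      simp only [p, Polynomial.eval_sub, Polynomial.eval_pow, Polynomial.eval_X,
        Polynomial.eval_C] at this
      exact sub_eq_zero.1 this
    have haV : a ∈ V := by
      rw [← ValuationSubring.valuation_le_one_iff]
      have h5 := congrArg V.valuation ha1
      rw [map_pow, map_one] at h5
      exact (pow_le_one_iff hn.ne').1 h5.le
    have h6 := hcon ⟨a, haV⟩ ha1
    have h7 : V.valuation ((l : Om) - a) ≤ 1 := by
      rw [ValuationSubring.valuation_le_one_iff]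
      exact sub_mem l.2 haV
    refine le_antisymm h7 (not_lt.1 fun h8 => h6 ?_)
    exact ((residue_eq_iff l ⟨a, haV⟩).2 h8).symm
  have h9 : V.valuation (p.eval (l : Om)) = 1 := by
    rw [hsplit, Polynomial.eval_multiset_prod, Multiset.map_map, map_multiset_prod,
      Multiset.map_map]
    refine Multiset.prod_eq_one ?_
    intro v hv
    obtain ⟨a, ha, rfl⟩ := Multiset.mem_map.1 hv
    simp only [Function.comp_apply, Polynomial.eval_sub, Polynomial.eval_X, Polynomial.eval_C]
    exact h4 a ha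
  rw [h1] at h9
  exact absurd h9 h2.ne

/-- a root of unity of order invertible in `V` which reduces to `1` is `1` -/
theorem root_eq_one (d : ℕ) (hd : V.valuation (d : Om) = 1) (c : Om) (hc : c ^ d = 1)
    (h1 : V.valuation (c - 1) < 1) : c = 1 := by
  by_contra hne
  have hcV : c ∈ V := by
    have : c = (c - 1) + 1 := by ring
    rw [this]
    exact V.add_mem _ _ ((ValuationSubring.valuation_le_one_iff V _).1 h1.le) V.one_mem
  have h2 : (∑ i ∈ Finset.range d, c ^ i) = 0 := by
    have h3 : (∑ i ∈ Finset.range d, c ^ i) * (c - 1) = 0 := by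
      rw [geom_sum_mul, hc, sub_self]
    exact (mul_eq_zero.1 h3).resolve_right (sub_ne_zero.2 hne)
  let c' : V := ⟨c, hcV⟩
  have h4 : IsLocalRing.residue V c' = 1 := by
    rw [← map_one (IsLocalRing.residue V), residue_eq_iff]
    exact h1
  have h5 : IsLocalRing.residue V (∑ i ∈ Finset.range d, c' ^ i) = (d : IsLocalRing.ResidueField V) := by
    rw [map_sum]
    simp [h4]
  have h6 : (∑ i ∈ Finset.range d, c' ^ i) = 0 := by
    apply Subtype.val_injective
    rw [ZeroMemClass.coe_zero, ← h2]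
    push_cast
    rfl
  rw [h6, map_zero] at h5
  have h7 : IsLocalRing.residue V (d : V) = IsLocalRing.residue V 0 := by
    rw [map_natCast, ← h5, map_zero]
  rw [residue_eq_iff] at h7
  rw [ZeroMemClass.coe_zero, sub_zero] at h7
  have h8 : V.valuation (d : Om) < 1 := by exact_mod_cast h7
  exact absurd hd h8.ne

end Pool.Agent.Helper82.SR
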