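import Pool.Agent.Helper1.SR.Ker

set_option autoImplicit false

/-!
# PROJECT SB (MP_ad201b_nt), block R7: the semidirect matrices of an element of `Ghat D`
-/

open scoped TensorProduct Kronecker

namespace Pool.Agent.Helper82.SR

open Pool.Agent.Helper1.SR

variable {K Om : Type} [Field K] [Field Om] [Algebra K Om] {A : Type} [Ring A] [Algebra K A]

/-- the block diagonal matrix with `b` blocks `M` -/
noncomputable def Bk {D : Datum K Om A} (b : ℕ) (M : Matrix (Fin D.d) (Fin D.d) D.E) :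
    Matrix (Fin (b * D.d)) (Fin (b * D.d)) Om :=
  Matrix.reindex finProdFinEquiv finProdFinEquiv
    ((1 : Matrix (Fin b) (Fin b) Om) ⊗ₖ (M.map (algebraMap D.E Om)))

variable {D : Datum K Om A} {b : ℕ}

theorem Bk_mul (M N : Matrix (Fin D.d) (Fin D.d) D.E) : Bk b (M * N) = Bk b M * Bk b N := by
  unfold Bk
  rw [Matrix.reindex_apply, Matrix.reindex_apply, Matrix.reindex_apply,
    Matrix.submatrix_mul_equiv, ← Matrix.mul_kronecker_mul, one_mul, ← Matrix.map_mul]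

theorem Bk_one : Bk b (1 : Matrix (Fin D.d) (Fin D.d) D.E) = 1 := by
  unfold Bk
  rw [Matrix.map_one _ (map_zero _) (map_one _), Matrix.one_kronecker_one, Matrix.reindex_apply,
    Matrix.submatrix_one_equiv]

theorem Bk_smul (c : D.E) (M : Matrix (Fin D.d) (Fin D.d) D.E) :
    Bk b (c • M) = (c : Om) • Bk b M := by
  ext i j
  simp [Bk, Matrix.kroneckerMap_apply]
  ring

theorem Bk_det (M : Matrix (Fin D.d) (Fin D.d) D.E) (h : M.det = 1) : (Bk b M).det = 1 := by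
  unfold Bk
  rw [Matrix.det_reindex_self, Matrix.det_kronecker, Matrix.det_one, one_pow, one_mul]
  have h1 : (M.map (algebraMap D.E Om)).det = algebraMap D.E Om M.det :=
    (RingHom.map_det (algebraMap D.E Om) M).symm
  rw [h1, h, map_one, one_pow]

/-- `g` is a lift of the Galois element of `x` -/
def Over (x : Ghat D) (g : Om ≃ₐ[K] Om) : Prop :=
  ∀ e : D.E, g (e : Om) = ((x.g e : D.E) : Om)

theorem Over.mul {x y : Ghat D} {g h : Om ≃ₐ[K] Om} (hx : Over x g) (hy : Over y h) :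
    Over (x * y) (g * h) := by
  intro e
  rw [AlgEquiv.mul_apply, hy, hx]
  rfl

theorem Over.one : Over (1 : Ghat D) 1 := fun _ => rfl

theorem Bk_map (x : Ghat D) (g : Om ≃ₐ[K] Om) (hx : Over x g)
    (M : Matrix (Fin D.d) (Fin D.d) D.E) : (Bk b M).map g = Bk b (mapG x.g M) := by
  ext i j
  simp only [Bk, Matrix.map_apply, Matrix.reindex_apply, Matrix.submatrix_apply,
    Matrix.kroneckerMap_apply, map_mul]
  rw [Matrix.one_apply]
  have h2 : g ((algebraMap D.E Om) (M (finProdFinEquiv.symm i).2 (finProdFinEquiv.symm j).2)) =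
      (algebraMap D.E Om) (x.g (M (finProdFinEquiv.symm i).2 (finProdFinEquiv.symm j).2)) :=
    hx _
  rw [h2]
  split_ifs
  · rw [map_one]
  · rw [map_zero]

/-- the twisted matrix of an element of `Ghat D` -/
noncomputable def PP (Q : Matrix (Fin (b * D.d)) (Fin (b * D.d)) Om) (x : Ghat D)
    (g : Om ≃ₐ[K] Om) : Matrix (Fin (b * D.d)) (Fin (b * D.d)) Om :=
  Q * Bk b x.M * (Q⁻¹).map g

variable {Q : Matrix (Fin (b * D.d)) (Fin (b * D.d)) Om}

theorem map_mulG (g : Om ≃ₐ[K] Om) {n : ℕ} (M N : Matrix (Fin n) (Fin n) Om) :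
    (M * N).map g = M.map g * N.map g :=
  Matrix.map_mul (f := (g : Om →+* Om))

theorem map_oneG (g : Om ≃ₐ[K] Om) {n : ℕ} : (1 : Matrix (Fin n) (Fin n) Om).map g = 1 :=
  Matrix.map_one g (map_zero g) (map_one g)

theorem map_detG (g : Om ≃ₐ[K] Om) {n : ℕ} (M : Matrix (Fin n) (Fin n) Om) :
    (M.map g).det = g M.det :=
  (RingHom.map_det (g : Om →+* Om) M).symm

theorem PP_one (hQ : Q.det = 1) : PP Q (1 : Ghat D) 1 = 1 := by
  unfold PP
  rw [Ghat.one_M, Bk_one, mul_one]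
  have h1 : (Q⁻¹).map (1 : Om ≃ₐ[K] Om) = Q⁻¹ := by ext i j; rfl
  rw [h1, Matrix.mul_nonsing_inv _ (by rw [hQ]; exact isUnit_one)]

theorem PP_mul (hQ : Q.det = 1) (x y : Ghat D) (g h : Om ≃ₐ[K] Om) (hx : Over x g) :
    PP Q (x * y) (g * h) = PP Q x g * (PP Q y h).map g := by
  have h1 : (Q⁻¹).map g * Q.map g = 1 := by
    rw [← map_mulG, Matrix.nonsing_inv_mul _ (by rw [hQ]; exact isUnit_one), map_oneG]
  have h2 : ((Q⁻¹).map h).map g = (Q⁻¹).map (g * h) := by ext i j; rfl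
  unfold PP
  rw [map_mulG, map_mulG, h2, Bk_map x g hx, Ghat.mul_M, Bk_mul]
  calc Q * (Bk b x.M * Bk b (mapG x.g y.M)) * (Q⁻¹).map (g * h)
      = Q * Bk b x.M * 1 * Bk b (mapG x.g y.M) * (Q⁻¹).map (g * h) := by
        simp only [mul_assoc, mul_one, one_mul]
    _ = _ := by
        rw [← h1]
        simp only [mul_assoc]

theorem PP_det (hQ : Q.det = 1) (x : Ghat D) (g : Om ≃ₐ[K] Om) : (PP Q x g).det = 1 := by
  unfold PP
  rw [Matrix.det_mul, Matrix.det_mul, map_detG, Matrix.det_nonsing_inv, Bk_det _ x.det, hQ,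
    Ring.inverse_one, map_one, mul_one, mul_one]

/-- the twisted matrix intertwines -/
theorem PP_comm (hQ : Q.det = 1) (x : Ghat D) (g : Om ≃ₐ[K] Om) (hx : Over x g)
    (Ψ : Matrix (Fin (b * D.d)) (Fin (b * D.d)) Om)
    (Ω Ω' : Matrix (Fin (b * D.d)) (Fin (b * D.d)) Om)
    (h1 : Ψ * Q = Q * Ω) (h2 : Ω.map g = Ω') (h3 : Bk b x.M * Ω' = Ω * Bk b x.M) :
    PP Q x g * Ψ.map g = Ψ * PP Q x g := by
  have hQu : IsUnit Q.det := by rw [hQ]; exact isUnit_one
  have h4 : Q⁻¹ * Ψ = Ω * Q⁻¹ := by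
    calc Q⁻¹ * Ψ = Q⁻¹ * (Ψ * Q) * Q⁻¹ := by
          rw [mul_assoc, mul_assoc, Matrix.mul_nonsing_inv _ hQu, mul_one]
      _ = Ω * Q⁻¹ := by rw [h1, ← mul_assoc, Matrix.nonsing_inv_mul _ hQu, one_mul]
  unfold PP
  calc Q * Bk b x.M * (Q⁻¹).map g * Ψ.map g = Q * Bk b x.M * (Q⁻¹ * Ψ).map g := by
        rw [map_mulG]; simp only [mul_assoc]
    _ = Q * (Bk b x.M * Ω') * (Q⁻¹).map g := by
        rw [h4, map_mulG, h2]; simp only [mul_assoc]
    _ = Ψ * Q * Bk b x.M * (Q⁻¹).map g := by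
        rw [h3, h1]; simp only [mul_assoc]
    _ = _ := by simp only [mul_assoc]

end Pool.Agent.Helper82.SR
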