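import Pool.Agent.Helper8.BR.Group
import Pool.Agent.Helper8.BR.Centralizer
import Pool.Agent.Helper8.BR.Fields

set_option autoImplicit false

/-!
# PROJECT SB (MP_ad201b_nt), block R6: the Brauer group of a valuation ring injects into the
Brauer group of its fraction field
-/

open scoped TensorProduct

namespace Pool.Agent.Helper82.SR

open Pool.Agent.Helper8.BR

/-- finitely generated torsion free modules over a valuation ring are free -/
theorem free_of_valuation (O M : Type) [CommRing O] [IsDomain O] [ValuationRing O]
    [AddCommGroup M] [Module O M] [Module.Finite O M] [Module.IsTorsionFree O M] :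
    Module.Free O M := by
  have hflat : Module.Flat O M := by
    rw [Module.Flat.flat_iff_torsion_eq_bot_of_isBezout,
      ← Submodule.isTorsionFree_iff_torsion_eq_bot]
    infer_instance
  exact Module.free_of_flat_of_isLocalRing

/-- an algebra homomorphism between free Azumaya algebras of the same rank over a local ring
is bijective -/
theorem bijective_of_rank (O C E : Type) [CommRing O] [IsLocalRing O] [Ring C] [Algebra O C]
    [Ring E] [Algebra O E] [Module.Free O C] [Module.Free O E] [IsAzumaya O C] [Module.Finite O E]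
    [Nontrivial E] (f : C →ₐ[O] E) (h : Module.finrank O C = Module.finrank O E) :
    Function.Bijective f := by
  have hCfin : Module.Finite O C := inferInstance
  let κ := IsLocalRing.ResidueField O
  let fκ : κ ⊗[O] C →ₐ[κ] κ ⊗[O] E := Algebra.TensorProduct.map (AlgHom.id κ κ) f
  have haz : IsAzumaya κ (κ ⊗[O] C) := az_baseChange O κ C
  have hsimple : IsSimpleRing (κ ⊗[O] C) := az_simple κ _
  have hE0 : 0 < Module.finrank O E := by
    rw [Nat.pos_iff_ne_zero]
    intro h0
    have hemp : IsEmpty (Fin (Module.finrank O E)) := by rw [h0]; infer_instance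
    have hsub : Subsingleton E := (Module.finBasis O E).repr.toEquiv.subsingleton
    exact not_subsingleton E hsub
  have hEn : Nontrivial (κ ⊗[O] E) := by
    apply Module.nontrivial_of_finrank_pos (R := κ)
    rw [Module.finrank_baseChange]
    exact hE0
  have hinj : Function.Injective fκ := RingHom.injective fκ.toRingHom
  have hdim : Module.finrank κ (κ ⊗[O] C) = Module.finrank κ (κ ⊗[O] E) := by
    rw [Module.finrank_baseChange, Module.finrank_baseChange, h]
  have hsurj : Function.Surjective fκ :=
    (LinearMap.injective_iff_surjective_of_finrank_eq_finrank (f := fκ.toLinearMap) hdim).1 hinj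
  have hrange : LinearMap.range f.toLinearMap = ⊤ := by
    rw [← IsLocalRing.map_tensorProduct_mk_eq_top, eq_top_iff]
    rintro y -
    obtain ⟨z, rfl⟩ := hsurj y
    obtain ⟨c, rfl⟩ := TensorProduct.mk_surjective O C κ Ideal.Quotient.mk_surjective z
    exact ⟨f c, ⟨c, rfl⟩, by simp [fκ]⟩
  have hs : Function.Surjective f := fun y => by
    have : y ∈ LinearMap.range f.toLinearMap := by rw [hrange]; trivial
    exact this
  refine ⟨?_, hs⟩
  let e : C ≃ₗ[O] E := LinearEquiv.ofFinrankEq C E h
  have h1 : Function.Surjective (e.symm.toLinearMap ∘ₗ f.toLinearMap) := by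
    rw [LinearMap.coe_comp]
    exact e.symm.surjective.comp hs
  have h2 := OrzechProperty.injective_of_surjective_endomorphism _ h1
  intro x y hxy
  apply h2
  rw [LinearMap.comp_apply, LinearMap.comp_apply]
  exact congrArg e.symm hxy

section split

variable {O L C : Type} [CommRing O] [Field L] [Algebra O L] [Ring C] [Algebra O C]

/-- the action of `C` on `L ^ m` -/
noncomputable def vact {m : ℕ} (e : L ⊗[O] C ≃ₐ[L] Matrix (Fin m) (Fin m) L) :
    C →ₗ[O] (Fin m → L) →ₗ[O] (Fin m → L) where
  toFun a :=
    { toFun := fun v => Matrix.mulVec (e (1 ⊗ₜ a)) v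
      map_add' := fun v w => Matrix.mulVec_add _ v w
      map_smul' := fun r v => by
        rw [RingHom.id_apply, ← algebraMap_smul L r v, ← algebraMap_smul L r (Matrix.mulVec _ v),
          Matrix.mulVec_smul] }
  map_add' a b := by
    refine LinearMap.ext fun v => ?_
    change Matrix.mulVec (e (1 ⊗ₜ (a + b))) v = _
    rw [TensorProduct.tmul_add, map_add, Matrix.add_mulVec]
    rfl
  map_smul' r a := by
    refine LinearMap.ext fun v => ?_
    change Matrix.mulVec (e (1 ⊗ₜ (r • a))) v = r • Matrix.mulVec (e (1 ⊗ₜ a)) v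
    rw [← algebraMap_smul L r (Matrix.mulVec _ v), TensorProduct.tmul_smul, ← algebraMap_smul L r,
      map_smul, Matrix.smul_mulVec]

theorem vact_apply {m : ℕ} (e : L ⊗[O] C ≃ₐ[L] Matrix (Fin m) (Fin m) L) (a : C)
    (v : Fin m → L) : vact e a v = Matrix.mulVec (e (1 ⊗ₜ a)) v := rfl

theorem vact_mul {m : ℕ} (e : L ⊗[O] C ≃ₐ[L] Matrix (Fin m) (Fin m) L) (a b : C)
    (v : Fin m → L) : vact e (a * b) v = vact e a (vact e b v) := by
  rw [vact_apply, vact_apply, vact_apply, Matrix.mulVec_mulVec, ← map_mul,
    Algebra.TensorProduct.tmul_mul_tmul, one_mul]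

theorem vact_one {m : ℕ} (e : L ⊗[O] C ≃ₐ[L] Matrix (Fin m) (Fin m) L)
    (v : Fin m → L) : vact e 1 v = v := by
  rw [vact_apply, ← Algebra.TensorProduct.one_def, map_one, Matrix.one_mulVec]

theorem split_core [IsDomain O] [ValuationRing O] [IsFractionRing O L] [Module.Free O C]
    [IsAzumaya O C] {m : ℕ} (hm : m ≠ 0) (e : L ⊗[O] C ≃ₐ[L] Matrix (Fin m) (Fin m) L) :
    BrEq O C O := by
  classical
  have hm' : NeZero m := ⟨hm⟩
  have hCfin : Module.Finite O C := inferInstance
  let v0 : Fin m → L := Pi.single 0 1
  let f0 : C →ₗ[O] (Fin m → L) := (vact e).flip v0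
  have hf0 : ∀ c, f0 c = vact e c v0 := fun c => rfl
  let M : Submodule O (Fin m → L) := LinearMap.range f0
  have hlat : Submodule.IsLattice L M := by
    refine ⟨?_, ?_⟩
    · have : Module.Finite O M := Module.Finite.range f0
      exact (Module.Finite.iff_fg (N := M)).1 this
    · rw [eq_top_iff]
      rintro w -
      obtain ⟨t, ht⟩ := e.surjective (Matrix.of fun i j => if j = 0 then w i else 0)
      have hw : Matrix.mulVec (e t) v0 = w := by
        rw [ht]
        funext i
        simp only [Matrix.mulVec, dotProduct, Matrix.of_apply, v0]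
        rw [Finset.sum_eq_single 0]
        · rw [if_pos rfl, Pi.single_eq_same, mul_one]
        · intro b _ hb
          rw [if_neg hb, zero_mul]
        · intro h
          exact absurd (Finset.mem_univ _) h
      rw [← hw]
      clear hw ht
      induction t using TensorProduct.induction_on with
      | zero =>
        rw [map_zero, Matrix.zero_mulVec]
        exact Submodule.zero_mem _
      | add s t hs ht =>
        rw [map_add, Matrix.add_mulVec]
        exact Submodule.add_mem _ hs ht
      | tmul k a =>
        have h3 : e (k ⊗ₜ a) = k • e (1 ⊗ₜ a) := by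
          rw [← map_smul, TensorProduct.smul_tmul', smul_eq_mul, mul_one]
        rw [h3, Matrix.smul_mulVec]
        refine Submodule.smul_mem _ _ (Submodule.subset_span ⟨a, rfl⟩)
  have hstab : ∀ (a : C) (v : Fin m → L), v ∈ M → vact e a v ∈ M := by
    rintro a _ ⟨c, rfl⟩
    exact ⟨a * c, by rw [hf0, hf0, vact_mul]⟩
  have hMfin : Module.Finite O M := Submodule.IsLattice.finite L M
  have hinjOL : Function.Injective (algebraMap O L) := IsFractionRing.injective O L
  have hLtf : Module.IsTorsionFree O (Fin m → L) := by
    have : Module.IsTorsionFree O L := inferInstance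
    infer_instance
  have hMtf : Module.IsTorsionFree O M := inferInstance
  have hMfree : Module.Free O M := free_of_valuation O M
  have hMrank : Module.finrank O M = m := by
    let b := Module.finBasis O M
    have h1 := Module.finrank_eq_card_basis (b.extendOfIsLattice L)
    rw [Module.finrank_pi, Fintype.card_fin, Fintype.card_fin] at h1
    exact h1.symm
  let f : C →ₐ[O] Module.End O M :=
    { toFun := fun a => (vact e a).restrict (hstab a)
      map_one' := by
        refine LinearMap.ext fun x => Subtype.ext ?_
        exact vact_one e x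
      map_mul' := fun a b => by
        refine LinearMap.ext fun x => Subtype.ext ?_
        exact vact_mul e a b x
      map_zero' := by
        refine LinearMap.ext fun x => Subtype.ext ?_
        change vact e 0 x = 0
        rw [map_zero, LinearMap.zero_apply]
      map_add' := fun a b => by
        refine LinearMap.ext fun x => Subtype.ext ?_
        change vact e (a + b) x = vact e a x + vact e b x
        rw [map_add, LinearMap.add_apply]
      commutes' := fun r => by
        refine LinearMap.ext fun x => Subtype.ext ?_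
        change vact e (algebraMap O C r) x = r • (x : Fin m → L)
        rw [Algebra.algebraMap_eq_smul_one, map_smul, LinearMap.smul_apply, vact_one] }
  let bM : Module.Basis (Fin m) O M := (Module.finBasis O M).reindex (finCongr hMrank)
  let eM : Module.End O M ≃ₐ[O] Matrix (Fin m) (Fin m) O := algEquivMatrix bM
  have hEfree : Module.Free O (Module.End O M) := Module.Free.of_equiv eM.symm.toLinearEquiv
  have hEfin : Module.Finite O (Module.End O M) := Module.Finite.equiv eM.symm.toLinearEquiv
  have hEn : Nontrivial (Module.End O M) := eM.toEquiv.nontrivial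
  have hrank : Module.finrank O C = Module.finrank O (Module.End O M) := by
    rw [eM.toLinearEquiv.finrank_eq, ← Module.finrank_baseChange (R := L) (S := O) (M' := C),
      e.toLinearEquiv.finrank_eq, Module.finrank_matrix, Module.finrank_matrix,
      Module.finrank_self, Module.finrank_self]
  have hbij := bijective_of_rank O C (Module.End O M) f hrank
  exact (BrEq.of_algEquiv ((AlgEquiv.ofBijective f hbij).trans eM)).trans (BrEq.matrix O O m hm)

end split

/-- over a valuation ring a (free) Azumaya algebra which is split over the fraction field is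
split -/
theorem split_of_fractionRing (O L C : Type) [CommRing O] [IsDomain O] [ValuationRing O]
    [Field L] [Algebra O L] [IsFractionRing O L] [Ring C] [Algebra O C] [Module.Free O C]
    [IsAzumaya O C] (h : BrEq L (L ⊗[O] C) L) : BrEq O C O := by
  obtain ⟨n, m, hn, hm, ⟨e⟩⟩ := h
  have := az_matrix O C n hn
  have e1 : L ⊗[O] (Matrix (Fin n) (Fin n) C) ≃ₐ[L] Matrix (Fin n) (Fin n) (L ⊗[O] C) := by
    have f1 : L ≃ₐ[L] Matrix Unit Unit L := (Matrix.uniqueAlgEquiv).symm
    have f2 := Algebra.TensorProduct.congr f1
      (AlgEquiv.refl (R := O) (A₁ := Matrix (Fin n) (Fin n) C))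
    have f3 := Matrix.kroneckerTMulAlgEquiv Unit (Fin n) O L L C
    have f4 := Matrix.reindexAlgEquiv L (L ⊗[O] C) (Equiv.uniqueProd (Fin n) Unit)
    exact (f2.trans f3).trans f4
  exact (BrEq.matrix O C n hn).symm.trans
    (split_core (C := Matrix (Fin n) (Fin n) C) hm (e1.trans e))

/-- the Brauer group of a valuation ring injects into the Brauer group of its fraction field -/
theorem BrEq.of_valuation (O L A B : Type) [CommRing O] [IsDomain O] [ValuationRing O]
    [Field L] [Algebra O L] [IsFractionRing O L] [Ring A] [Algebra O A] [Module.Free O A]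
    [IsAzumaya O A] [Ring B] [Algebra O B] [Module.Free O B] [IsAzumaya O B]
    (h : BrEq L (L ⊗[O] A) (L ⊗[O] B)) : BrEq O A B := by
  have := az_op O B
  have := az_tensor O A Bᵐᵒᵖ
  have := az_baseChange O L A
  have := az_baseChange O L B
  have := az_baseChange O L (A ⊗[O] Bᵐᵒᵖ)
  have := az_baseChange O L Bᵐᵒᵖ
  have h1 : BrEq L (L ⊗[O] (A ⊗[O] Bᵐᵒᵖ)) L := by
    rw [← Br.mk_eq_zero_iff]
    rw [← (Br.map_mk_eq_iff O L (A ⊗[O] Bᵐᵒᵖ) (L ⊗[O] (A ⊗[O] Bᵐᵒᵖ))).2 (BrEq.refl _ _)]
    rw [← (Br.mk_add_mk_eq_iff O A Bᵐᵒᵖ (A ⊗[O] Bᵐᵒᵖ)).2 (BrEq.refl _ _), map_add]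
    have h2 : Br.map (algebraMap O L) (Br.mk O A) = Br.map (algebraMap O L) (Br.mk O B) := by
      rw [(Br.map_mk_eq_iff O L A (L ⊗[O] A)).2 (BrEq.refl _ _),
        (Br.map_mk_eq_iff O L B (L ⊗[O] B)).2 (BrEq.refl _ _), Br.mk_eq_iff]
      exact h
    rw [h2, ← map_add, (Br.mk_add_mk_eq_iff O B Bᵐᵒᵖ O).2 (BrEq.tensor_op O B)]
    rw [(Br.mk_eq_zero_iff O O).2 (BrEq.refl _ _), map_zero]
  exact BrEq.of_tensor_op (split_of_fractionRing O L (A ⊗[O] Bᵐᵒᵖ) h1)

end Pool.Agent.Helper82.SR
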